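import Pool.Agent.N111.GG.Eng

/-!
Entire curves lie in the fibres of the rational maps which are given by functions which are
algebraic over the values of multi-valued maps.
-/

set_option autoImplicit false
set_option maxHeartbeats 400000
set_option linter.overlappingInstances false
set_option linter.unusedSectionVars false

open FF IntermediateField Filter

namespace Pool.Agent.N111.GG

open Pool.Agent.W602.GT Pool.Agent.TH466.QG Pool.Agent.Y221.AB Pool.Agent.TH143.EL
open Pool.Agent.N111.FT Pool.Agent.Y221.BD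

/-- affine and homogeneous values of forms -/
theorem aeval_norm {k E : Type} [Field k] [Field E] [Algebra k E] {M d : ℕ}
    {G : MvPolynomial (Fin (M + 1)) k} (hG : G.IsHomogeneous d) {z : Fin (M + 1) → E}
    {i1 : Fin (M + 1)} (hz1 : z i1 ≠ 0) :
    val z G = z i1 ^ d * MvPolynomial.aeval (fun i => z i / z i1) G := by
  have h1 := val_smul hG (z i1) (fun i => z i / z i1)
  have h2 : (fun i => z i1 * (z i / z i1)) = z := by
    funext i
    exact mul_div_cancel₀ _ hz1
  rw [h2] at h1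
  exact h1

theorem adjoin_const {k E : Type} [Field k] [Field E] [Algebra k E] {τ : Type} {p : τ → E}
    (hp : ∀ i, ∃ c : k, algebraMap k E c = p i) : adjoin k (Set.range p) = ⊥ := by
  rw [eq_bot_iff, IntermediateField.adjoin_le_iff]
  rintro _ ⟨i, rfl⟩
  exact IntermediateField.mem_bot.2 (hp i)

/-- **Entire curves.** -/
theorem Fam.brody {L : Type} [Field L] [Algebra ℂ L] {s N r : ℕ} (A : Fam ℂ L s N r)
    (hN : NB r s ≤ N) {M : ℕ} {x : Fin (M + 1) → L} (hx : x ≠ 0) (hgen : coords ℂ x = ⊤)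
    {q d : ℕ} {G : Fin (q + 1) → MvPolynomial (Fin (M + 1)) ℂ} (hG : ∀ m, (G m).IsHomogeneous d)
    {m0 : Fin (q + 1)} (h0 : val x (G m0) ≠ 0)
    (hh : ∀ m, algebraMap L A.M (val x (G m) / val x (G m0)) ∈ aclo ℂ A.vals) :
    ∃ R : MvPolynomial (Fin (M + 1)) ℂ, IsForm R ∧ val x R ≠ 0 ∧ ∀ f, EntireCurve x f →
      (∃ t, MvPolynomial.eval (fun i => f i t) R ≠ 0) →
      ∃ c : Fin (q + 1) → ℂ, ∀ m t, MvPolynomial.eval (fun i => f i t) (G m) =
        c m * MvPolynomial.eval (fun i => f i t) (G m0) := by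
  classical
  obtain ⟨i1, hi1'⟩ := Function.ne_iff.1 hx
  have hi1 : x i1 ≠ 0 := hi1'
  have hD : MvPolynomial.aeval (fun i => x i / x i1) (G m0) ≠ 0 := by
    intro h1
    apply h0
    rw [aeval_norm (hG m0) hi1, h1, mul_zero]
  choose Θ hΘ hopen using fun j => open_ana (A.C j).high hN (A.C j).u_mem (i0 := (A.C j).i0)
    (by rw [(A.C j).u_i0]; exact one_ne_zero) (A.C j).not_lin (A.C j).not_wt
  obtain ⟨H, hH, hE⟩ := A.engine (adjoin_norm hgen hi1) hh hD (P := G) (fun m => by
    rw [aeval_norm (hG m) hi1, aeval_norm (hG m0) hi1]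
    have := pow_ne_zero d hi1
    field_simp) hΘ
  refine ⟨MvPolynomial.X i1 * hz i1 H, ?_, ?_, ?_⟩
  · obtain ⟨d, hd⟩ := hz_form i1 H
    exact ⟨1 + d, (MvPolynomial.isHomogeneous_X ℂ i1).mul hd⟩
  · change MvPolynomial.aeval x _ ≠ 0
    rw [map_mul, MvPolynomial.aeval_X]
    refine mul_ne_zero hi1 ?_
    change val x _ ≠ 0
    rw [val_hz H hi1]
    exact mul_ne_zero (pow_ne_zero _ hi1) hH
  intro f hf
  rintro ⟨t0, hft⟩
  have hmer : ∀ i, Meromorphic (f i) := fun i t =>
    ((hf.hol i).analyticAt t).meromorphicAt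
  obtain ⟨z, hzdef⟩ : ∃ z : Fin (M + 1) → MK, z = fun i => cl (f i) (hmer i) := ⟨_, rfl⟩
  have hcont : ∀ G : MvPolynomial (Fin (M + 1)) ℂ,
      Continuous fun t => MvPolynomial.eval (fun i => f i t) G := fun G =>
    (MvPolynomial.continuous_eval G).comp (continuous_pi fun i => (hf.hol i).continuous)
  have hvz : ∀ G, val z G = 0 ↔ ∀ t, MvPolynomial.eval (fun i => f i t) G = 0 := by
    intro G
    rw [hzdef, val_cl hmer G, cl_eq_zero]
    constructor
    · intro h t
      exact eq_of_codis (g := fun _ => 0) h (hcont G).continuousAt continuousAt_const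
    · intro h
      exact Eventually.of_forall h
  have hzR : val z (MvPolynomial.X i1 * hz i1 H) ≠ 0 := by
    intro h0
    exact hft ((hvz _).1 h0 t0)
  change MvPolynomial.aeval z _ ≠ 0 at hzR
  rw [map_mul, MvPolynomial.aeval_X] at hzR
  have hz1 : z i1 ≠ 0 := left_ne_zero_of_mul hzR
  have hzH : MvPolynomial.aeval (fun i => z i / z i1) H ≠ 0 := by
    have h1 : val z (Pool.Agent.TH466.QG.hz i1 H) ≠ 0 := right_ne_zero_of_mul hzR
    rw [val_hz H hz1] at h1
    exact right_ne_zero_of_mul h1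
  have hsp : ∀ G : MvPolynomial (Fin (M + 1)) ℂ,
      MvPolynomial.aeval (fun i => x i / x i1) G = 0 →
      MvPolynomial.aeval (fun i => z i / z i1) G = 0 := by
    intro G hG
    have h1 : val x (Pool.Agent.TH466.QG.hz i1 G) = 0 := by
      rw [val_hz G hi1, hG, mul_zero]
    have h2 := (hvz _).2 (hf.mem _ (hz_form i1 G) h1)
    rw [val_hz G hz1] at h2
    exact (mul_eq_zero.1 h2).resolve_left (pow_ne_zero _ hz1)
  obtain ⟨K'', i1', i2', i3', i4', i5', Ej, Sj, y', hrk, hSΘ, hSu, hDz, halg⟩ := hE MK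
    (fun i => z i / z i1) hsp hzH
  have hcst : ∀ j, Cst (A.C j).i0 (y' j) := fun j =>
    hopen j (Ej j) (hrk j) (Sj j) (hSΘ j) (y' j) (hSu j)
  have hone : ∀ j, y' j (A.C j).i0 = 1 := by
    intro j
    have h1 := hSu j (A.C j).i0
    rw [(A.C j).u_i0] at h1
    exact (Sj j).ext h1 (Sj j).one
  have hbot := adjoin_const (k := ℂ)
    (p := fun p : Σ j, Fin ((A.C j).n + 1) => (y' p.1 p.2 : K'')) (by
      rintro ⟨j, i⟩
      obtain ⟨c, hc⟩ := hcst j i
      refine ⟨c, ?_⟩
      change _ = ((y' j i : Ej j) : K'')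
      rw [hc, hone, mul_one]
      rfl)
  have hall : ∀ m, ∃ c : ℂ, val z (G m) = algebraMap ℂ MK c * val z (G m0) := by
    intro m
    have h1 := halg m
    rw [mem_aclo, hbot] at h1
    have h2 : IsAlgebraic ℂ (algebraMap MK K'' (MvPolynomial.aeval (fun i => z i / z i1) (G m) /
      MvPolynomial.aeval (fun i => z i / z i1) (G m0))) := h1.restrictScalars ℂ
    obtain ⟨c, hc⟩ := const_of_algebraic h2
    refine ⟨c, ?_⟩
    rw [IsScalarTower.algebraMap_apply ℂ MK K''] at hc
    have h3 := (algebraMap MK K'').injective hc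
    rw [aeval_norm (hG m) hz1, aeval_norm (hG m0) hz1, ← h3]
    field_simp
  choose c hc using hall
  refine ⟨c, fun m t => ?_⟩
  have h1 := hc m
  rw [hzdef, val_cl hmer, val_cl hmer, ← cl_const, cl_mul, cl_eq] at h1
  exact eq_of_codis (f := fun t => MvPolynomial.eval (fun i => f i t) (G m))
    (g := fun t => c m * MvPolynomial.eval (fun i => f i t) (G m0)) h1
    (hcont (G m)).continuousAt ((continuous_const.mul (hcont (G m0))).continuousAt)

end Pool.Agent.N111.GG
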