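import Pool.Agent.N111.GG.Lang
import Pool.Agent.TH466.QG.Top

/-!
The core: the field of the functions which are algebraic over the values of all multi-valued maps
to closed subvarieties of systems of high powers.
-/

set_option autoImplicit false
set_option maxHeartbeats 400000
set_option linter.overlappingInstances false
set_option linter.unusedSectionVars false

open FF IntermediateField Polynomial

namespace Pool.Agent.N111.GG

open Pool.Agent.W602.GT (val coords GeneralType tn IsForm)
open Pool.Agent.TH466.QG Pool.Agent.N111.FT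

/-- the values of all multi-valued maps -/
def allVals (k L : Type) [Field k] [Field L] [Algebra k L] (s N r : ℕ) (Ω : Type) [Field Ω]
    [Algebra L Ω] : Set Ω := ⋃ C : MultiMap k L s N r, C.values Ω

/-- finitely many functions which are algebraic over the values of all multi-valued maps are
algebraic over the values of a finite family -/
theorem exists_fam {k F : Type} [Field k] [Field F] [Algebra k F] {s N r : ℕ} {Ω : Type}
    [Field Ω] [Algebra k Ω] [Algebra F Ω] [IsScalarTower k F Ω] {τ : Type} [Finite τ] (h : τ → F)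
    (hh : ∀ m, algebraMap F Ω (h m) ∈ aclo k (allVals k F s N r Ω)) :
    ∃ A : Fam k F s N r, ∀ m, algebraMap F A.M (h m) ∈ aclo k A.vals := by
  classical
  choose T hTV hT using fun m => aclo_finite (hh m)
  let W : Set Ω := ⋃ m, (T m : Set Ω)
  have hWf : W.Finite := Set.finite_iUnion fun m => (T m).finite_toSet
  have hWF : Finite W := hWf
  have hW : ∀ v : W, ∃ (C : MultiMap k F s N r) (ψ : C.K' →ₐ[F] Ω) (z : C.K),
      (v : Ω) = ψ (algebraMap C.K C.K' z) := by
    rintro ⟨v, hv⟩
    obtain ⟨m, hm⟩ := Set.mem_iUnion.1 hv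
    obtain ⟨C, ψ, z, hz⟩ := Set.mem_iUnion.1 (hTV m hm)
    exact ⟨C, ψ, z, hz⟩
  choose C ψ z hz using hW
  let M : IntermediateField F Ω := ⨆ v : W, (ψ v).fieldRange
  have hfr : ∀ v, FiniteDimensional F (ψ v).fieldRange := fun v =>
    LinearMap.finiteDimensional_range (ψ v).toLinearMap
  have hM : FiniteDimensional F M := IntermediateField.finiteDimensional_iSup_of_finite
  let ψ' : ∀ v, (C v).K' →ₐ[F] M := fun v => (ψ v).codRestrict M.toSubalgebra (fun z =>
    (le_iSup (fun v => (ψ v).fieldRange) v) ⟨z, rfl⟩)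
  let A : Fam k F s N r := { J := W, C := C, M := M, ψ := ψ' }
  refine ⟨A, fun m => ?_⟩
  change algebraMap F M (h m) ∈ aclo k A.vals
  rw [← map_mem_aclo_iff (M.val.restrictScalars k)]
  refine aclo_mono ?_ (hT m)
  intro v hv
  let v' : W := ⟨v, Set.mem_iUnion.2 ⟨m, hv⟩⟩
  exact ⟨ψ' v' (algebraMap _ _ (z v')), Set.mem_iUnion.2 ⟨v', z v', rfl⟩, (hz v').symm⟩

/-- a finite family over which all functions are algebraic -/
theorem exists_fam_all {k F : Type} [Field k] [Field F] [Algebra k F] {s N r : ℕ} {Ω : Type}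
    [Field Ω] [Algebra k Ω] [Algebra F Ω] [IsScalarTower k F Ω] {n : ℕ}
    (hn : Algebra.trdeg k F = n)
    (hh : ∀ z : F, algebraMap F Ω z ∈ aclo k (allVals k F s N r Ω)) :
    ∃ A : Fam k F s N r, ∀ z, algebraMap F A.M z ∈ aclo k A.vals := by
  have htop : Algebra.IsAlgebraic (Algebra.adjoin k (Set.univ : Set F)) F :=
    ⟨fun x => isAlgebraic_algebraMap
      (⟨x, Algebra.subset_adjoin (Set.mem_univ x)⟩ : Algebra.adjoin k (Set.univ : Set F))⟩
  obtain ⟨B, -, hB⟩ := exists_isTranscendenceBasis_subset (R := k) (A := F) Set.univ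
  have hcard := hB.cardinalMk_eq_trdeg
  rw [hn] at hcard
  have hfin : Finite B := by
    rw [← Cardinal.mk_lt_aleph0_iff, hcard]
    exact Cardinal.natCast_lt_aleph0
  obtain ⟨A, hA⟩ := exists_fam (fun b : B => (b : F)) fun b => hh b
  refine ⟨A, fun z => ?_⟩
  have h1 : z ∈ aclo k B := by
    rw [mem_aclo]
    have h2 := hB.isAlgebraic_field.isAlgebraic z
    rwa [Subtype.range_coe] at h2
  have h2 := (map_mem_aclo_iff (IsScalarTower.toAlgHom k F A.M) B z).2 h1
  refine aclo_le ?_ h2
  rintro _ ⟨b, hb, rfl⟩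
  exact hA ⟨b, hb⟩

section core

variable (k L : Type) [Field k] [Field L] [Algebra k L] (s N r : ℕ)

/-- **The core**: the functions which are algebraic over the values of all multi-valued maps. -/
noncomputable def core : IntermediateField k L :=
  (aclo k (allVals k L s N r (AlgebraicClosure L))).comap
    (IsScalarTower.toAlgHom k L (AlgebraicClosure L))

variable {k L s N r}

theorem mem_core {z : L} : z ∈ core k L s N r ↔
    algebraMap L (AlgebraicClosure L) z ∈ aclo k (allVals k L s N r (AlgebraicClosure L)) :=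
  Iff.rfl

theorem core_closed {x : L} (h : IsAlgebraic (core k L s N r) x) : x ∈ core k L s N r := by
  rw [mem_core]
  apply aclo_closed
  let f : core k L s N r →+* aclo k (allVals k L s N r (AlgebraicClosure L)) :=
    { toFun := fun y => ⟨algebraMap L (AlgebraicClosure L) y, y.2⟩
      map_one' := Subtype.ext (map_one _)
      map_mul' := fun a b => Subtype.ext (map_mul _ _ _)
      map_zero' := Subtype.ext (map_zero _)
      map_add' := fun a b => Subtype.ext (map_add _ _ _) }
  exact h.ringHom_of_comp_eq f (algebraMap L (AlgebraicClosure L)) f.injective rfl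

/-- the functions on the targets are algebraic over the core -/
theorem alg_core (C : MultiMap k L s N r) (z : C.K) :
    IsAlgebraic (core k L s N r) (algebraMap C.K C.K' z) := by
  classical
  set z' := algebraMap C.K C.K' z with hz'
  let Ω := AlgebraicClosure L
  have hint : IsIntegral L z' := Algebra.IsIntegral.isIntegral _
  set p := minpoly L z' with hp
  have hpm : (p.map (algebraMap L Ω)).Monic := (minpoly.monic hint).map _
  have h1 : p.map (algebraMap L Ω) ∈
      Polynomial.lifts (algebraMap (aclo k (allVals k L s N r Ω)) Ω) := by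
    refine (IsAlgClosed.splits (p.map (algebraMap L Ω))).mem_lift_of_roots_mem_range hpm _ ?_
    intro a ha
    have h2 : a ∈ (minpoly L z').rootSet Ω := by
      rw [Polynomial.mem_rootSet]
      refine ⟨minpoly.ne_zero hint, ?_⟩
      have h3 := (Polynomial.mem_roots'.1 ha).2
      rw [Polynomial.IsRoot.def, Polynomial.eval_map] at h3
      rw [Polynomial.aeval_def]
      exact h3
    rw [← Algebra.IsAlgebraic.range_eval_eq_rootSet_minpoly (F := L) (K := C.K') Ω z'] at h2
    obtain ⟨ψ, rfl⟩ := h2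
    exact ⟨⟨ψ z', subset_aclo _ (Set.mem_iUnion.2 ⟨C, ψ, z, rfl⟩)⟩, rfl⟩
  have h2 : p ∈ Polynomial.lifts (algebraMap (core k L s N r) L) := by
    rw [Polynomial.lifts_iff_coeff_lifts] at h1 ⊢
    intro i
    obtain ⟨c, hc⟩ := h1 i
    rw [Polynomial.coeff_map] at hc
    refine ⟨⟨p.coeff i, ?_⟩, rfl⟩
    rw [mem_core]
    change algebraMap L Ω (p.coeff i) ∈ _
    rw [← hc]
    exact c.2
  obtain ⟨q, hq⟩ := (Polynomial.mem_lifts _).1 h2
  refine ⟨q, ?_, ?_⟩
  · rintro rfl
    rw [Polynomial.map_zero] at hq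
    exact minpoly.ne_zero hint hq.symm
  · have h3 : Polynomial.aeval z' (q.map (algebraMap (core k L s N r) L)) = 0 := by
      rw [hq]
      exact minpoly.aeval L z'
    rwa [Polynomial.aeval_map_algebraMap] at h3

end core

section descend

variable {k L : Type} [Field k] [CharZero k] [Field L] [Algebra k L] {s N r : ℕ}

/-- the minimal polynomials over a field and over an algebraically closed subfield -/
theorem minpoly_lift {L₀ : IntermediateField k L} (hcl : ∀ z : L, IsAlgebraic L₀ z → z ∈ L₀)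
    {K : Type} [Field K] [Algebra L K] {θ : K} (hθ : IsIntegral L₀ θ) :
    (minpoly L₀ θ).map (algebraMap L₀ L) = minpoly L θ := by
  have h1 : minpoly L θ ∣ (minpoly L₀ θ).map (algebraMap L₀ L) :=
    minpoly.dvd_map_of_isScalarTower L₀ L θ
  have hθL : IsIntegral L θ := hθ.tower_top
  have h2 := integralClosure.mem_lifts_of_monic_of_dvd_map L (minpoly.monic hθ)
    (minpoly.monic hθL) h1
  have h3 : minpoly L θ ∈ Polynomial.lifts (algebraMap L₀ L) := by
    rw [Polynomial.lifts_iff_coeff_lifts] at h2 ⊢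
    intro i
    obtain ⟨c, hc⟩ := h2 i
    refine ⟨⟨(minpoly L θ).coeff i, hcl _ ?_⟩, rfl⟩
    rw [← hc]
    exact (show IsIntegral L₀ (c : L) from c.2).isAlgebraic
  obtain ⟨q, hq, -, hqm⟩ := Polynomial.lifts_and_natDegree_eq_and_monic h3 (minpoly.monic hθL)
  have h4 : Polynomial.aeval θ q = 0 := by
    have h5 : Polynomial.aeval θ (q.map (algebraMap L₀ L)) = 0 := by
      rw [hq]
      exact minpoly.aeval L θ
    rwa [Polynomial.aeval_map_algebraMap] at h5
  have h5 : minpoly L₀ θ ∣ q := minpoly.dvd L₀ θ h4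
  have h6 : (minpoly L₀ θ).map (algebraMap L₀ L) ∣ minpoly L θ := by
    rw [← hq]
    exact Polynomial.map_dvd _ h5
  exact (Polynomial.eq_of_monic_of_associated ((minpoly.monic hθ).map _) (minpoly.monic hθL)
    (associated_of_dvd_dvd h6 h1))

/-- **The multi-valued maps descend** to the algebraically closed subfields over which the
functions on the targets are algebraic. -/
theorem MultiMap.descend (C : MultiMap k L s N r) {L₀ : IntermediateField k L}
    (hcl : ∀ z : L, IsAlgebraic L₀ z → z ∈ L₀)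
    (halg : ∀ z : C.K, IsAlgebraic L₀ (algebraMap C.K C.K' z)) :
    ∃ (C₀ : MultiMap k L₀ s N r) (e : C.K ≃ₐ[k] C₀.K), (∀ (Ω : Type) [Field Ω] [Algebra L Ω]
      (ψ : C.K' →ₐ[L] Ω), ∃ ψ₀ : C₀.K' →ₐ[L₀] Ω, ∀ z, ψ (algebraMap C.K C.K' z) =
        ψ₀ (algebraMap C₀.K C₀.K' (e z))) ∧
      ∀ (Ω : Type) [Field Ω] [Algebra L Ω] [IsAlgClosed Ω] (ψ₀ : C₀.K' →ₐ[L₀] Ω),
        ∃ ψ : C.K' →ₐ[L] Ω, ∀ z, ψ (algebraMap C.K C.K' z) =
          ψ₀ (algebraMap C₀.K C₀.K' (e z)) := by
  classical
  have hL : CharZero L := charZero_of_injective_algebraMap (algebraMap k L).injective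
  have hL₀ : CharZero L₀ := charZero_of_injective_algebraMap (algebraMap k L₀).injective
  let K₁ : IntermediateField L₀ C.K' :=
    adjoin L₀ (Set.range fun i => algebraMap C.K C.K' (C.u i))
  have hK₁ : FiniteDimensional L₀ K₁ := by
    refine IntermediateField.finiteDimensional_adjoin ?_
    rintro _ ⟨i, rfl⟩
    exact (halg _).isIntegral
  have hmem : ∀ z : C.K, algebraMap C.K C.K' z ∈ K₁ := by
    intro z
    have hz : z ∈ adjoin k (Set.range C.u) := by
      rw [C.adjoin_u]
      exact IntermediateField.mem_top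
    have h1 : algebraMap C.K C.K' z ∈ (adjoin k (Set.range C.u)).map
        (IsScalarTower.toAlgHom k C.K C.K') := ⟨z, hz, rfl⟩
    rw [IntermediateField.adjoin_map] at h1
    have h2 : adjoin k ((IsScalarTower.toAlgHom k C.K C.K') '' Set.range C.u) ≤
        K₁.restrictScalars k := by
      rw [adjoin_le_iff]
      rintro _ ⟨_, ⟨i, rfl⟩, rfl⟩
      exact subset_adjoin L₀ _ ⟨i, rfl⟩
    exact h2 h1
  let f : C.K →+* K₁ := (algebraMap C.K C.K').codRestrict K₁.toSubalgebra hmem
  let _ : Algebra C.K K₁ := f.toAlgebra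
  have htow : IsScalarTower k C.K K₁ := IsScalarTower.of_algebraMap_eq fun c => by
    apply Subtype.ext
    change algebraMap k C.K' c = algebraMap C.K C.K' (algebraMap k C.K c)
    exact IsScalarTower.algebraMap_apply k C.K C.K' c
  obtain ⟨θ, hθ⟩ := Field.exists_primitive_element L₀ K₁
  have hθi : IsIntegral L₀ θ := Algebra.IsIntegral.isIntegral θ
  have hθi' : IsIntegral L₀ (θ : C.K') := hθi.map K₁.val
  have hmin : minpoly L₀ (θ : C.K') = minpoly L₀ θ := by
    have := minpoly.algHom_eq (A := L₀) K₁.val K₁.val.injective θ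
    exact this
  have hlift := minpoly_lift hcl hθi'
  have hdeg : Module.finrank L₀ K₁ ≤ r := by
    have h1 : Module.finrank L₀ K₁ = (minpoly L₀ θ).natDegree := by
      rw [← IntermediateField.adjoin.finrank hθi, hθ, IntermediateField.finrank_top']
    rw [h1, ← hmin, ← Polynomial.natDegree_map (algebraMap L₀ L), hlift]
    exact (minpoly.natDegree_le _).trans C.degree
  let C₀ : MultiMap k L₀ s N r :=
    { n := C.n, ι := C.ι, F := C.F, high := C.high, K := C.K, w := C.w, y := C.y, sub := C.sub,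
      notRuled := C.notRuled, K' := K₁, degree := hdeg }
  refine ⟨C₀, AlgEquiv.refl, ?_, ?_⟩
  · intro Ω _ _ ψ
    exact ⟨(ψ.restrictScalars L₀).comp K₁.val, fun z => rfl⟩
  · intro Ω _ _ _ ψ₀
    have h1 : ψ₀ θ ∈ (minpoly L (θ : C.K')).rootSet Ω := by
      rw [Polynomial.mem_rootSet]
      refine ⟨minpoly.ne_zero hθi'.tower_top, ?_⟩
      rw [← hlift, Polynomial.aeval_map_algebraMap, hmin]
      have h2 := Polynomial.aeval_algHom_apply ψ₀ θ (minpoly L₀ θ)
      rw [h2, minpoly.aeval, map_zero]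
    rw [← Algebra.IsAlgebraic.range_eval_eq_rootSet_minpoly (F := L) (K := C.K') Ω] at h1
    obtain ⟨ψ, hψ⟩ := h1
    have h3 : Algebra.adjoin L₀ {θ} = ⊤ := by
      rw [← IntermediateField.adjoin_simple_toSubalgebra_of_isAlgebraic hθi.isAlgebraic, hθ]
      rfl
    have h2 : (ψ.restrictScalars L₀).comp K₁.val = ψ₀ := by
      refine AlgHom.ext_of_adjoin_eq_top h3 fun y hy => ?_
      rw [Set.mem_singleton_iff.1 hy]
      exact hψ
    refine ⟨ψ, fun z => ?_⟩
    rw [← h2]
    rfl

end descend

section main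

variable {k L : Type} [Field k] [CharZero k] [IsAlgClosed k] [Field L] [Algebra k L] {s N r : ℕ}

theorem MultiMap.circ (C : MultiMap k L s N r) (hN1 : 1 ≤ N) : HasCirc k s N C.w C.K := by
  have hgen : Algebra.IsAlgebraic (coords k C.y) C.K := by
    rw [C.sub.gen]
    infer_instance
  rcases C.notRuled with h | ⟨hc, h⟩
  · exact (circ_or_curve C.high hN1 C.sub.dim C.sub.ne hgen C.sub.mem).resolve_right h
  · exact (circ_or_ruled C.high hN1 C.sub hc).resolve_right h

/-- **General type.** -/
theorem Fam.general (A : Fam k L s N r) (hN1 : 1 ≤ N) {m : ℕ} (hm : Algebra.trdeg k L = m)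
    (hm1 : 1 ≤ m) (hN : r * (m * ((s + 4) * ((s - 1) * (s - 2) / 2))) ≤ N)
    (hjoint : ∀ z : L, algebraMap L A.M z ∈ aclo k A.vals) : GeneralType k L m := by
  refine general_family (Ω := A.M) (K := fun j => (A.C j).K') (K₀ := fun j => (A.C j).K) A.ψ
    (fun j => IsScalarTower.toAlgHom k (A.C j).K (A.C j).K') (fun j => (A.C j).degree)
    hjoint (fun j => (A.C j).circ hN1) hm hm1 ?_
  rw [tn_eq]
  exact hN

/-- the core inherits the multi-valued maps -/
theorem core_joint (z : core k L s N r) :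
    algebraMap (core k L s N r) (AlgebraicClosure L) z ∈
      aclo k (allVals k (core k L s N r) s N r (AlgebraicClosure L)) := by
  refine aclo_mono ?_ (mem_core.1 z.2)
  intro v hv
  obtain ⟨C, hC⟩ := Set.mem_iUnion.1 hv
  obtain ⟨ψ, z, rfl⟩ := hC
  obtain ⟨C₀, e, hC₀, -⟩ := C.descend (fun z hz => core_closed hz) (alg_core C)
  obtain ⟨ψ₀, hψ₀⟩ := hC₀ _ ψ
  exact Set.mem_iUnion.2 ⟨C₀, ψ₀, e z, hψ₀ z⟩

theorem exists_trdeg (L₀ : IntermediateField k L) {m : ℕ} (hm : Algebra.trdeg k L = m) :
    ∃ n, n ≤ m ∧ Algebra.trdeg k L₀ = n := by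
  have h1 := trdeg_le_of_injective L₀.val L₀.val.injective
  rw [hm] at h1
  obtain ⟨n, hnm, hn⟩ := Cardinal.exists_nat_eq_of_le_nat h1
  exact ⟨n, hnm, hn⟩

/-- **The core is of general type.** -/
theorem core_general (hN1 : 1 ≤ N) {m n : ℕ} (hm : Algebra.trdeg k L = m)
    (hN : r * (m * ((s + 4) * ((s - 1) * (s - 2) / 2))) ≤ N)
    (hn : Algebra.trdeg k (core k L s N r) = n) (hn1 : 1 ≤ n) :
    GeneralType k (core k L s N r) n := by
  obtain ⟨A, hA⟩ := exists_fam_all hn (core_joint (k := k) (L := L) (s := s) (N := N) (r := r))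
  obtain ⟨n', hn', hn''⟩ := exists_trdeg (core k L s N r) hm
  have h1 : n = n' := by
    have := hn.symm.trans hn''
    exact_mod_cast this
  refine A.general hN1 hn hn1 (le_trans ?_ hN) hA
  rw [h1]
  exact Nat.mul_le_mul_left _ (Nat.mul_le_mul_right _ hn')

/-- **The core is strongly of general type.** -/
theorem core_strong (hN1 : 1 ≤ N) {m : ℕ} (hm : Algebra.trdeg k L = m)
    (hN : r * (m * ((s + 4) * ((s - 1) * (s - 2) / 2))) ≤ N) {q : ℕ}
    {u : Fin (q + 1) → core k L s N r} (hu : u ≠ 0) (hgen : coords k u = ⊤) :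
    StronglyGeneral k u := by
  obtain ⟨n, hn, hn'⟩ := exists_trdeg (core k L s N r) hm
  obtain ⟨A, hA⟩ := exists_fam_all hn' (core_joint (k := k) (L := L) (s := s) (N := N) (r := r))
  refine A.strong hN1 hn' (le_trans ?_ hN) hA hu hgen
  exact Nat.mul_le_mul_left _ (Nat.mul_le_mul_right _ hn)

end main

end Pool.Agent.N111.GG
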