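import Pool.Agent.N111.GG.SP
import Pool.Agent.Y221.BD.Top

/-!
Rational maps with several values to closed subvarieties of systems of high powers, and their
specializations.
-/

set_option autoImplicit false
set_option linter.overlappingInstances false
set_option linter.unusedSectionVars false

open FF IntermediateField Polynomial

namespace Pool.Agent.N111.GG

open Pool.Agent.TH466.QG Pool.Agent.N111.FT Pool.Agent.Y221.BD
open Pool.Agent.W602.GT (val coords HighPowers SubVar IsComponent Ruled)

/-- A dominant rational map with at most `r` values from the variety `M` with function field `L` to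
a closed subvariety `V` of `{F = 0}`, where `F` is a finite system of high powers (with at most `s`
terms and exponents at least `N`): `K` is the function field, `y` the generic point, and `w` the
dimension of `V`, and `K'` is the function field of a variety `W` with a dominant rational map to
`V`, and with a dominant rational map to `M` which is generically finite, of degree at most `r`. It
is assumed that `V` is not covered by rational curves of `{F = 0}`, or that it is an irreducible
component of `{F = 0}` and not birational to `B × ℙ¹` for any `B`. -/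
structure MultiMap (k L : Type) [Field k] [Field L] [Algebra k L] (s N r : ℕ) where
  n : ℕ
  ι : Type
  [fin : Finite ι]
  F : ι → MvPolynomial (Fin (n + 1)) k
  high : HighPowers s N F
  K : Type
  [fieldK : Field K]
  [algK : Algebra k K]
  w : ℕ
  y : Fin (n + 1) → K
  sub : SubVar F K w y
  notRuled : ¬ RatCurve F y ∨ IsComponent F y ∧ ¬ Ruled k K
  K' : Type
  [fieldK' : Field K']
  [algK' : Algebra k K']
  [algKK' : Algebra K K']
  [algLK' : Algebra L K']
  [tower : IsScalarTower k K K']
  [tower' : IsScalarTower k L K']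
  [finite : FiniteDimensional L K']
  degree : Module.finrank L K' ≤ r

attribute [instance] MultiMap.fin MultiMap.fieldK MultiMap.algK MultiMap.fieldK' MultiMap.algK'
  MultiMap.algKK' MultiMap.algLK' MultiMap.tower MultiMap.tower' MultiMap.finite

namespace MultiMap

variable {k L : Type} [Field k] [Field L] [Algebra k L] {s N r : ℕ}

/-- The values, in a field containing `L`, of the functions on `V` along the branches of the
multi-valued map. -/
def values (C : MultiMap k L s N r) (Ω : Type) [Field Ω] [Algebra L Ω] : Set Ω :=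
  {v | ∃ (ψ : C.K' →ₐ[L] Ω) (z : C.K), v = ψ (algebraMap C.K C.K' z)}

/-- the embedding of the function field of `V` given by a branch -/
noncomputable def br (C : MultiMap k L s N r) {Ω : Type} [Field Ω] [Algebra k Ω] [Algebra L Ω]
    [IsScalarTower k L Ω] (ψ : C.K' →ₐ[L] Ω) : C.K →ₐ[k] Ω :=
  (ψ.restrictScalars k).comp (IsScalarTower.toAlgHom k C.K C.K')

theorem br_apply (C : MultiMap k L s N r) {Ω : Type} [Field Ω] [Algebra k Ω] [Algebra L Ω]
    [IsScalarTower k L Ω] (ψ : C.K' →ₐ[L] Ω) (z : C.K) :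
    C.br ψ z = ψ (algebraMap C.K C.K' z) := rfl

theorem exists_ne (C : MultiMap k L s N r) : ∃ i, C.y i ≠ 0 := by
  obtain ⟨i, hi⟩ := Function.ne_iff.1 C.sub.ne
  exact ⟨i, hi⟩

/-- a coordinate which does not vanish -/
noncomputable def i0 (C : MultiMap k L s N r) : Fin (C.n + 1) := C.exists_ne.choose

theorem hi0 (C : MultiMap k L s N r) : C.y C.i0 ≠ 0 := C.exists_ne.choose_spec

/-- the normalized coordinates -/
noncomputable def u (C : MultiMap k L s N r) (i : Fin (C.n + 1)) : C.K := C.y i / C.y C.i0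

theorem u_i0 (C : MultiMap k L s N r) : C.u C.i0 = 1 := div_self C.hi0

theorem adjoin_u (C : MultiMap k L s N r) : adjoin k (Set.range C.u) = ⊤ :=
  adjoin_norm C.sub.gen C.hi0

theorem u_mem (C : MultiMap k L s N r) (e : C.ι) : val C.u (C.F e) = 0 := by
  obtain ⟨d, hd⟩ := C.high.form e
  have h1 := Pool.Agent.W602.GT.val_smul hd (C.y C.i0) C.u
  have h2 : (fun i => C.y C.i0 * C.u i) = C.y := by
    funext i
    exact mul_div_cancel₀ _ C.hi0
  rw [h2, C.sub.mem] at h1
  exact (mul_eq_zero.1 h1.symm).resolve_left (pow_ne_zero _ C.hi0)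

end MultiMap

section scale

variable {k : Type} [Field k] {n : ℕ} {ι : Type} {F : ι → MvPolynomial (Fin (n + 1)) k}
  {K : Type} [Field K] [Algebra k K] {y : Fin (n + 1) → K}

theorem lin_scale (c : K) (l : Fin (n + 1) → k) :
    Pool.Agent.W602.GT.lin l (fun i => y i / c) = Pool.Agent.W602.GT.lin l y / c := by
  unfold Pool.Agent.W602.GT.lin
  rw [Finset.sum_div]
  exact Finset.sum_congr rfl fun i _ => by rw [mul_div_assoc]

theorem linMv_of_scale {c : K} (hc : c ≠ 0) (h : LinMv F (fun i => y i / c)) : LinMv F y := by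
  obtain ⟨i0, j0, v, Z, Q, h1, h2, h3, h4, h5, h6, h7, h8⟩ := h
  have hr : ∀ l : Fin (n + 1) → k, Pool.Agent.W602.GT.lin l (fun i => y i / c) = 0 ↔
      Pool.Agent.W602.GT.lin l y = 0 := by
    intro l
    rw [lin_scale, div_eq_zero_iff]
    exact ⟨fun h => h.resolve_right hc, Or.inl⟩
  have hq : ∀ l l' : Fin (n + 1) → k, Pool.Agent.W602.GT.lin l (fun i => y i / c) /
      Pool.Agent.W602.GT.lin l' (fun i => y i / c) =
      Pool.Agent.W602.GT.lin l y / Pool.Agent.W602.GT.lin l' y := by
    intro l l'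
    rw [lin_scale, lin_scale, div_div_div_cancel_right₀ hc]
  refine ⟨i0, j0, v, Z, Q, ?_, h2, h3, ?_, h5, ?_, ?_, ?_⟩
  · intro h0
    apply h1
    change y i0 / c = 0
    rw [h0, zero_div]
  · exact fun l hl => (hr l).1 (h4 l hl)
  · exact fun p hp => ⟨fun h0 => (h6 p hp).1 ((hr _).2 h0), fun h0 => (h6 p hp).2 ((hr _).2 h0)⟩
  · intro p hp
    rw [← hq]
    exact h7 p hp
  · intro M _ _ _ _ x hxZ hxQ e
    refine h8 M x hxZ (fun p hp => ?_) e
    rw [hq]
    exact hxQ p hp

theorem wtMv_of_scale {c : K} (hc : c ≠ 0) (hF : ∀ e, Pool.Agent.W602.GT.IsForm (F e))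
    (h : WtMv F (fun i => y i / c)) : WtMv F y := by
  obtain ⟨b, i, i', h1, h2, h3, h4⟩ := h
  refine ⟨b, i, i', ?_, ?_, h3, fun e v => ?_⟩
  · intro h0
    apply h1
    change y i / c = 0
    rw [h0, zero_div]
  · intro h0
    apply h2
    change y i' / c = 0
    rw [h0, zero_div]
  · obtain ⟨d, hwd⟩ := Pool.Agent.W602.GT.wc_form (hF e) b v
    have h5 := Pool.Agent.W602.GT.val_smul hwd c (fun i => y i / c)
    have h6 : (fun i => c * (y i / c)) = y := by
      funext i
      exact mul_div_cancel₀ _ hc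
    rw [h6, h4, mul_zero] at h5
    exact h5

end scale

section moves

variable {k L : Type} [Field k] [CharZero k] [IsAlgClosed k] [Field L] [Algebra k L]
  {s N r : ℕ}

theorem MultiMap.not_lin (C : MultiMap k L s N r) : ¬ LinMv C.F C.u := fun h =>
  (no_moves C.high C.sub C.notRuled).1 (linMv_of_scale C.hi0 h)

theorem MultiMap.not_wt (C : MultiMap k L s N r) : ¬ WtMv C.F C.u := fun h =>
  (no_moves C.high C.sub C.notRuled).2 (wtMv_of_scale C.hi0 C.high.form h)

end moves

section spz

variable {k K M K'' E : Type} [Field k] [Field K] [Field M] [Field K''] [Field E] [Algebra k K]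
  [Algebra k M] [Algebra k K''] [Algebra k E] [Algebra E K''] [IsScalarTower k E K'']

/-- the specialization of a field which is embedded -/
def pull (S : Sp k M K'') (φ : K →ₐ[k] M) : Sp k K K'' where
  T x x' := S.T (φ x) x'
  add h h' := by rw [map_add]; exact S.add h h'
  mul h h' := by rw [map_mul]; exact S.mul h h'
  const c := by rw [AlgHom.commutes]; exact S.const c
  uniq h := by
    rw [map_zero] at h
    exact S.uniq h

/-- the restriction of the values to a subfield -/
def cod (S : Sp k K K'') (A : IntermediateField E K'') : Sp k K A where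
  T x x' := S.T x (x' : K'')
  add h h' := S.add h h'
  mul h h' := S.mul h h'
  const c := S.const c
  uniq h := Subtype.ext (S.uniq h)

end spz

section engine

variable {k L : Type} [Field k] [CharZero k] [Field L] [Algebra k L] {s N r : ℕ}

/-- the branches of finitely many multi-valued maps over a finite extension -/
structure Fam (k L : Type) [Field k] [Field L] [Algebra k L] (s N r : ℕ) where
  J : Type
  [fin : Finite J]
  C : J → MultiMap k L s N r
  M : Type
  [fieldM : Field M]
  [algM : Algebra k M]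
  [algLM : Algebra L M]
  [tower : IsScalarTower k L M]
  [finite : FiniteDimensional L M]
  ψ : ∀ j, (C j).K' →ₐ[L] M

attribute [instance] Fam.fin Fam.fieldM Fam.algM Fam.algLM Fam.tower Fam.finite

/-- the union of the images -/
def Fam.vals (A : Fam k L s N r) : Set A.M :=
  ⋃ j, Set.range ((A.C j).br (A.ψ j))

/-- the values of the normalized coordinates -/
noncomputable def Fam.pts (A : Fam k L s N r) (p : Σ j, Fin ((A.C j).n + 1)) : A.M :=
  (A.C p.1).br (A.ψ p.1) ((A.C p.1).u p.2)

theorem Fam.vals_le (A : Fam k L s N r) : A.vals ⊆ aclo k (Set.range A.pts) := by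
  intro v hv
  obtain ⟨j, z, rfl⟩ := Set.mem_iUnion.1 hv
  have hz : z ∈ adjoin k (Set.range (A.C j).u) := by
    rw [(A.C j).adjoin_u]
    exact IntermediateField.mem_top
  have h1 : (A.C j).br (A.ψ j) z ∈
      (adjoin k (Set.range (A.C j).u)).map ((A.C j).br (A.ψ j)) := ⟨z, hz, rfl⟩
  rw [IntermediateField.adjoin_map] at h1
  refine (adjoin_le_iff.2 ?_) h1
  rintro _ ⟨_, ⟨i, rfl⟩, rfl⟩
  exact subset_aclo _ ⟨⟨j, i⟩, rfl⟩

/-- **The engine.** -/
theorem Fam.engine (A : Fam k L s N r) {σ : Type} {x : σ → L}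
    (hx : adjoin k (Set.range x) = ⊤) {τ : Type} [Finite τ] {h : τ → L}
    (hh : ∀ m, algebraMap L A.M (h m) ∈ aclo k A.vals) {D : MvPolynomial σ k}
    (hD : MvPolynomial.aeval x D ≠ 0) {P : τ → MvPolynomial σ k}
    (hP : ∀ m, h m * MvPolynomial.aeval x D = MvPolynomial.aeval x (P m))
    {Θ : ∀ j, Set (A.C j).K} (hΘ : ∀ j, (Θ j).Finite) :
    ∃ H : MvPolynomial σ k, MvPolynomial.aeval x H ≠ 0 ∧
      ∀ (E : Type) [Field E] [Algebra k E] (z : σ → E),
        (∀ G : MvPolynomial σ k, MvPolynomial.aeval x G = 0 → MvPolynomial.aeval z G = 0) →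
        MvPolynomial.aeval z H ≠ 0 →
        ∃ (K'' : Type) (_ : Field K'') (_ : Algebra k K'') (_ : Algebra E K'')
          (_ : IsScalarTower k E K'') (_ : FiniteDimensional E K'')
          (Ej : A.J → IntermediateField E K'') (Sj : ∀ j, Sp k (A.C j).K (Ej j))
          (y' : ∀ j, Fin ((A.C j).n + 1) → Ej j),
            (∀ j, Module.finrank E (Ej j) ≤ r) ∧
            (∀ j, ∀ ϑ ∈ Θ j, ∃ t, (Sj j).T ϑ t) ∧
            (∀ j i, (Sj j).T ((A.C j).u i) (y' j i)) ∧ MvPolynomial.aeval z D ≠ 0 ∧
            ∀ m, algebraMap E K'' (MvPolynomial.aeval z (P m) / MvPolynomial.aeval z D) ∈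
              aclo k (Set.range fun p : Σ j, Fin ((A.C j).n + 1) => (y' p.1 p.2 : K'')) := by
  classical
  obtain ⟨H₂, hH₂, halg⟩ := alg_spec_aff A.pts (fun m => algebraMap L A.M (h m))
    (fun m => aclo_le A.vals_le (hh m))
  obtain ⟨H, hH, hspread⟩ := spread_sub hx
    (Θ := {(MvPolynomial.aeval A.pts H₂)⁻¹, (algebraMap L A.M (MvPolynomial.aeval x D))⁻¹})
    (Set.toFinite _) A.ψ
    (Θ' := fun j => algebraMap (A.C j).K (A.C j).K' '' (Θ j ∪ Set.range (A.C j).u))
    (fun j => ((hΘ j).union (Set.finite_range _)).image _)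
  refine ⟨H, hH, fun E _ _ z hz hzH => ?_⟩
  obtain ⟨K'', i1, i2, i3, i4, i5, S, Ej, hSx, hSΘ, hE⟩ := hspread E z hz hzH
  have hval : ∀ j, ∀ ϑ ∈ Θ j ∪ Set.range (A.C j).u,
      ∃ t : Ej j, S.T ((A.C j).br (A.ψ j) ϑ) (t : K'') := by
    intro j ϑ hϑ
    obtain ⟨t, ht, hT⟩ := (hE j).2 _ ⟨ϑ, hϑ, rfl⟩
    exact ⟨⟨t, ht⟩, hT⟩
  choose y' hy' using fun j i => hval j ((A.C j).u i) (Or.inr ⟨i, rfl⟩)
  have hDS : ∃ t, S.T (algebraMap L A.M (MvPolynomial.aeval x D))⁻¹ t := hSΘ _ (Or.inr rfl)
  refine ⟨K'', i1, i2, i3, i4, i5, Ej, fun j => cod (pull S ((A.C j).br (A.ψ j))) (Ej j), y',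
    fun j => (hE j).1.trans (A.C j).degree, fun j ϑ hϑ => hval j ϑ (Or.inl hϑ),
    fun j i => hy' j i, den_spec S hSx hD hDS, fun m => ?_⟩
  exact halg K'' S (hSΘ _ (Or.inl rfl)) _ (fun p => hy' p.1 p.2)
    (fun m => algebraMap E K'' (MvPolynomial.aeval z (P m) / MvPolynomial.aeval z D))
    (fun m => rat_spec S hSx hD hDS (hP m)) m

end engine

end Pool.Agent.N111.GG
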