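import Pool.Agent.N111.FT.Fib

/-!
Fields which are algebraic over several fields with systems of circuits of high powers, each of
which is contained in an extension of small degree, are function fields of general type.
-/

set_option autoImplicit false
set_option linter.overlappingInstances false
set_option linter.unusedSectionVars false

open FF IntermediateField Pool.Agent.W603.LV

namespace Pool.Agent.N111.GG

open Pool.Agent.TH466.QG Pool.Agent.N111.FT
open Pool.Agent.W602.GT (GeneralType tn)

/-- **The theorem for embeddings of several fields.** -/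
theorem general_of_homsF {k E : Type} [Field k] [CharZero k] [IsAlgClosed k] [Field E]
    [Algebra k E] {Γ : Subgroup (E ≃ₐ[k] E)} [Finite Γ] {J : Type} {K₀ : J → Type}
    [∀ j, Field (K₀ j)] [∀ j, Algebra k (K₀ j)]
    (φ : ∀ j, K₀ j →ₐ[k] E) (H : J → Subgroup Γ)
    (hfix : ∀ j, ∀ h ∈ H j, ∀ z, (h : E ≃ₐ[k] E) (φ j z) = φ j z) {r : ℕ}
    (hidx : ∀ j, (H j).index ≤ r) (halg : ∀ x : E, x ∈ aclo k (⋃ j, Set.range (φ j)))
    {s N n : ℕ} {w : J → ℕ} (hC : ∀ j, HasCirc k s N (w j) (K₀ j))
    (hn : Algebra.trdeg k E = n) (hn1 : 1 ≤ n)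
    (hN : r * (n * ((s + 4) * tn (s - 1))) ≤ N) : GeneralType k (fixedField Γ) n := by
  classical
  choose m d U c a b hms hNd hU hc hsum hlin hbas using hC
  let t : ∀ j, Fin (w j) → K₀ j := fun j i =>
    (c j i (a j i) • U j i (a j i) ^ d j i) / (c j i (b j i) • U j i (b j i) ^ d j i)
  -- the conjugates of the ratios
  let T : Set E := ⋃ j, Set.range fun i => φ j (t j i)
  have hK₀ : ∀ j (z : K₀ j), z ∈ aclo k (Set.range (t j)) := fun j z =>
    mem_aclo.2 ((hbas j).isAlgebraic_field.isAlgebraic z)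
  have hTall : ∀ x : E, x ∈ aclo k T := by
    intro x
    refine aclo_le ?_ (halg x)
    rintro _ hx
    rw [Set.mem_iUnion] at hx
    obtain ⟨j, z, rfl⟩ := hx
    have h1 := (map_mem_aclo_iff (φ j) (Set.range (t j)) z).2 (hK₀ j z)
    refine aclo_mono ?_ h1
    rintro _ ⟨_, ⟨i, rfl⟩, rfl⟩
    exact Set.mem_iUnion.2 ⟨j, i, rfl⟩
  have hTalg : Algebra.IsAlgebraic (adjoin k T) E := ⟨fun x => mem_aclo.1 (hTall x)⟩
  have hTalg' := Pool.Agent.W602.GT.alg_adjoin hTalg
  obtain ⟨B, hBT, hBb⟩ := exists_isTranscendenceBasis_subset (R := k) (A := E) T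
  have hcard := hBb.cardinalMk_eq_trdeg
  rw [hn] at hcard
  obtain ⟨ψ⟩ : Nonempty (Fin n ≃ B) := by
    rw [← Cardinal.eq, Cardinal.mk_fin]
    exact hcard.symm
  have hub : IsTranscendenceBasis k (fun l => (ψ l : E)) := hBb.comp_equiv ψ
  have hmem : ∀ l, ∃ (j : J) (i : Fin (w j)), φ j (t j i) = (ψ l : E) := by
    intro l
    obtain ⟨j, i, hji⟩ := Set.mem_iUnion.1 (hBT (ψ l).2)
    exact ⟨j, i, hji⟩
  choose j i hji using hmem
  have hinj : ∀ l, Function.Injective (φ l) := fun l => (φ l).injective
  choose γ hγ using fun l => exists_generic (Γ := Γ)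
    (fun q => φ (j l) (U (j l) (i l) q) / φ (j l) (U (j l) (i l) (b (j l) (i l))))
  let z : Fin n → E := fun l =>
    (∑ q, γ l q • φ (j l) (U (j l) (i l) q)) / φ (j l) (U (j l) (i l) (b (j l) (i l)))
  have hz : ∀ l, z l = ∑ q, γ l q •
      (φ (j l) (U (j l) (i l) q) / φ (j l) (U (j l) (i l) (b (j l) (i l)))) := by
    intro l
    change (∑ q, γ l q • φ (j l) (U (j l) (i l) q)) /
      φ (j l) (U (j l) (i l) (b (j l) (i l))) = _
    rw [Finset.sum_div]
    exact Finset.sum_congr rfl fun q _ => by rw [smul_div_assoc]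
  have hzH : ∀ l, ∀ h ∈ H (j l), (h : E ≃ₐ[k] E) (z l) = z l := by
    intro l h hh
    rw [hz, map_sum]
    refine Finset.sum_congr rfl fun q _ => ?_
    rw [map_smul, map_div₀, hfix _ h hh, hfix _ h hh]
  choose Y hYc hYm hY using fun l => exists_rep (z l) (H (j l)) (hzH l)
  let C : Fin n → CC Γ := fun l =>
    { m := m (j l) (i l), U := fun q => φ (j l) (U (j l) (i l) q), c := c (j l) (i l),
      d := d (j l) (i l), b := b (j l) (i l), γ := γ l, Y := Y l }
  have hCT : ∀ l q, (C l).T q =
      φ (j l) (c (j l) (i l) q • U (j l) (i l) q ^ d (j l) (i l)) := by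
    intro l q
    change c (j l) (i l) q • (φ (j l) (U (j l) (i l) q)) ^ d (j l) (i l) = _
    rw [map_smul, map_pow]
  have hbas' : IsTranscendenceBasis k fun l => (C l).T (a (j l) (i l)) / (C l).T (C l).b := by
    convert hub using 1
    funext l
    rw [hCT, hCT, ← map_div₀, ← hji l]
  have htr : ∀ l, Transcendental k ((C l).T (a (j l) (i l)) / (C l).T (b (j l) (i l))) :=
    fun l => hbas'.1.transcendental l
  have hTne : ∀ l q, (C l).T q ≠ 0 := by
    intro l q
    rw [hCT]
    simp only [ne_eq, map_eq_zero]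
    exact smul_ne_zero (hc _ _ q) (pow_ne_zero _ (hU _ _ q))
  have hTsum : ∀ l, ∑ q, (C l).T q = 0 := by
    intro l
    have h1 : ∑ q, (C l).T q =
        φ (j l) (∑ q, c (j l) (i l) q • U (j l) (i l) q ^ d (j l) (i l)) := by
      rw [map_sum]
      exact Finset.sum_congr rfl fun q _ => hCT l q
    rw [h1, hsum, map_zero]
  have hWle : Wt C (s + 4) ≤ n * ((s + 4) * tn (s - 1)) := by
    unfold Wt
    calc ∑ l, (s + 4) * tn (C l).m ≤ ∑ _l : Fin n, (s + 4) * tn (s - 1) := by
          refine Finset.sum_le_sum fun l _ => Nat.mul_le_mul_left _ (tn_mono ?_)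
          have := hms (j l) (i l)
          change m (j l) (i l) ≤ s - 1
          omega
      _ = n * ((s + 4) * tn (s - 1)) := by simp
  have hS : SysF C (s + 4) r (fun l => H (j l)) :=
    { hc := fun l => hc (j l) (i l)
      hU := fun l q => by
        change φ (j l) (U (j l) (i l) q) ≠ 0
        rw [Ne, map_eq_zero]
        exact hU _ _ q
      hsum := hTsum
      hlin := by
        intro l
        have h1 := (hlin (j l) (i l)).map' (φ (j l)).toLinearMap
          (LinearMap.ker_eq_bot.2 (hinj (j l)))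
        have h2 : (fun q => (C l).T ((Fin.last (m (j l) (i l))).succAbove q)) =
            (φ (j l)).toLinearMap ∘ fun q =>
              c (j l) (i l) ((Fin.last (m (j l) (i l))).succAbove q) •
                U (j l) (i l) ((Fin.last (m (j l) (i l))).succAbove q) ^ d (j l) (i l) :=
          funext fun q => hCT l _
        change LinearIndependent k
          (fun q => (C l).T ((Fin.last (m (j l) (i l))).succAbove q))
        rw [h2]
        exact h1
      hgen := by
        intro l g hg q
        change (g : E ≃ₐ[k] E) (z l) = z l at hg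
        rw [hz] at hg
        exact hγ l g hg q
      hH := fun l q h hh => hfix (j l) h hh _
      hr := fun l => hidx (j l)
      hYc := fun l => (hYc l).trans (hidx (j l))
      hY := fun l g hg => hY l g hg
      hYm := fun l τ hτ => hYm l τ hτ
      hA := fun l => by
        have := hms (j l) (i l)
        change m (j l) (i l) + 5 ≤ s + 4
        omega
      hd := fun l => ((Nat.mul_le_mul_left r hWle).trans hN).trans (hNd (j l) (i l))
      hW := by
        unfold Wt
        have h1 : 0 < (s + 4) * tn (C ⟨0, hn1⟩).m := by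
          refine Nat.mul_pos (by omega) (tn_pos ?_)
          exact two_le (hTne _) (hTsum _) (htr ⟨0, hn1⟩)
        exact lt_of_lt_of_le h1
          (Finset.single_le_sum (f := fun l => (s + 4) * tn (C l).m) (fun l _ => Nat.zero_le _)
            (Finset.mem_univ _)) }
  exact general_of_sysF hn hS (fun l => a (j l) (i l)) hbas'

section galois

variable {k M F : Type} [Field k] [CharZero k] [IsAlgClosed k] [Field M] [Field F]
  [Algebra k M] [Algebra k F] [Algebra F M] [IsScalarTower k F M]

/-- the theorem for a finite Galois extension and a family of subextensions -/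
theorem general_galF [FiniteDimensional F M] [IsGalois F M] {J : Type} {K K₀ : J → Type}
    [∀ j, Field (K j)] [∀ j, Field (K₀ j)] [∀ j, Algebra k (K j)] [∀ j, Algebra k (K₀ j)]
    [∀ j, Algebra F (K j)] [∀ j, IsScalarTower k F (K j)] [∀ j, FiniteDimensional F (K j)]
    (ι : ∀ j, K j →ₐ[F] M) (κ : ∀ j, K₀ j →ₐ[k] K j) {r : ℕ}
    (hr : ∀ j, Module.finrank F (K j) ≤ r)
    (halg : ∀ x : F, algebraMap F M x ∈ aclo k (⋃ j, Set.range fun z => ι j (κ j z)))
    {s N n : ℕ} {w : J → ℕ} (hC : ∀ j, HasCirc k s N (w j) (K₀ j))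
    (hn : Algebra.trdeg k F = n) (hn1 : 1 ≤ n)
    (hN : r * (n * ((s + 4) * tn (s - 1))) ≤ N) : GeneralType k F n := by
  classical
  have hfin : Finite (fixg k M F) := fixg_finite
  obtain ⟨e⟩ := exists_equiv (k := k) (M := M) (F := F)
  refine general_of_equiv e ?_
  let φ : ∀ j, K₀ j →ₐ[k] M := fun j => ((ι j).restrictScalars k).comp (κ j)
  have hHex : ∀ j, ∃ H : Subgroup (fixg k M F), (∀ h ∈ H, ∀ z : K j,
      (h : M ≃ₐ[k] M) (ι j z) = ι j z) ∧ H.index ≤ r := by
    intro j
    let _ : Algebra (K j) M := (ι j).toRingHom.toAlgebra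
    have h1 : IsScalarTower F (K j) M := IsScalarTower.of_algebraMap_eq fun x =>
      ((ι j).commutes x).symm
    have h2 : IsScalarTower k (K j) M := IsScalarTower.of_algebraMap_eq fun x => by
      rw [IsScalarTower.algebraMap_apply k F M, IsScalarTower.algebraMap_apply k F (K j),
        ← IsScalarTower.algebraMap_apply F (K j) M]
    refine ⟨fixK k M F (K j), fun h hh z => hh z, (index_le (K := K j)).trans (hr j)⟩
  choose H hH hHr using hHex
  refine general_of_homsF (J := J) φ H (fun j h hh z => hH j h hh _) hHr ?_ hC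
    (by rw [Pool.Agent.N111.FT.trdeg_alg (E := F), hn]) hn1 hN
  intro x
  apply aclo_closed
  -- the field contains `F`
  let A := aclo k (⋃ j, Set.range fun z => ι j (κ j z))
  let f : F →+* A :=
    { toFun := fun y => ⟨algebraMap F M y, halg y⟩
      map_one' := Subtype.ext (map_one _)
      map_mul' := fun a b => Subtype.ext (map_mul _ _ _)
      map_zero' := Subtype.ext (map_zero _)
      map_add' := fun a b => Subtype.ext (map_add _ _ _) }
  have h1 : IsAlgebraic F x := Algebra.IsAlgebraic.isAlgebraic x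
  exact h1.ringHom_of_comp_eq f (RingHom.id M) f.injective rfl

end galois

/-- **The theorem for a family of subextensions of an arbitrary field.** -/
theorem general_family {k F : Type} [Field k] [CharZero k] [IsAlgClosed k] [Field F]
    [Algebra k F] {J : Type} [Finite J] {K K₀ : J → Type}
    [∀ j, Field (K j)] [∀ j, Field (K₀ j)] [∀ j, Algebra k (K j)] [∀ j, Algebra k (K₀ j)]
    [∀ j, Algebra F (K j)] [∀ j, IsScalarTower k F (K j)] [∀ j, FiniteDimensional F (K j)]
    {Ω : Type} [Field Ω] [Algebra k Ω] [Algebra F Ω] [IsScalarTower k F Ω]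
    (ι : ∀ j, K j →ₐ[F] Ω) (κ : ∀ j, K₀ j →ₐ[k] K j) {r : ℕ}
    (hr : ∀ j, Module.finrank F (K j) ≤ r)
    (halg : ∀ x : F, algebraMap F Ω x ∈ aclo k (⋃ j, Set.range fun z => ι j (κ j z)))
    {s N n : ℕ} {w : J → ℕ} (hC : ∀ j, HasCirc k s N (w j) (K₀ j))
    (hn : Algebra.trdeg k F = n) (hn1 : 1 ≤ n)
    (hN : r * (n * ((s + 4) * tn (s - 1))) ≤ N) : GeneralType k F n := by
  classical
  have hF : CharZero F := charZero_of_injective_algebraMap (algebraMap k F).injective
  let M₁ : IntermediateField F Ω := ⨆ j, (ι j).fieldRange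
  have hfr : ∀ j, FiniteDimensional F (ι j).fieldRange := fun j =>
    LinearMap.finiteDimensional_range (ι j).toLinearMap
  have hM₁ : FiniteDimensional F M₁ := IntermediateField.finiteDimensional_iSup_of_finite
  let L := AlgebraicClosure M₁
  have hLF : Algebra.IsAlgebraic F L := by
    have : Algebra.IsAlgebraic F M₁ := inferInstance
    have : Algebra.IsAlgebraic M₁ L := inferInstance
    exact Algebra.IsAlgebraic.trans F M₁ L
  have hLn : Normal F L := by
    have : IsAlgClosure F L := ⟨inferInstance, hLF⟩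
    exact IsAlgClosure.normal F L
  let M := normalClosure F M₁ L
  have hMn : Normal F M := inferInstance
  have hMf : FiniteDimensional F M := inferInstance
  have hMg : IsGalois F M := ⟨⟩
  have h5 : IsScalarTower F M₁ M := inferInstance
  have h4 : IsScalarTower k F M := inferInstance
  let ι' : ∀ j, K j →ₐ[F] M₁ := fun j => (ι j).codRestrict M₁.toSubalgebra (fun z =>
    (le_iSup (fun j => (ι j).fieldRange) j) ⟨z, rfl⟩)
  let τ : M₁ →ₐ[F] M := IsScalarTower.toAlgHom F M₁ M
  refine general_galF (M := M) (fun j => τ.comp (ι' j)) κ hr ?_ hC hn hn1 hN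
  intro x
  have h1 : (algebraMap F M₁ x) ∈ aclo k (⋃ j, Set.range fun z => ι' j (κ j z)) := by
    rw [← map_mem_aclo_iff (M₁.val.restrictScalars k)]
    refine aclo_mono ?_ (halg x)
    intro y hy
    obtain ⟨j, z, rfl⟩ := Set.mem_iUnion.1 hy
    exact ⟨ι' j (κ j z), Set.mem_iUnion.2 ⟨j, z, rfl⟩, rfl⟩
  have h2 := (map_mem_aclo_iff (τ.restrictScalars k) _ _).2 h1
  have h3 : (τ.restrictScalars k) (algebraMap F M₁ x) = algebraMap F M x :=
    (IsScalarTower.algebraMap_apply F M₁ M x).symm
  rw [h3] at h2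
  refine aclo_mono ?_ h2
  rintro _ ⟨y, hy, rfl⟩
  obtain ⟨j, z, rfl⟩ := Set.mem_iUnion.1 hy
  exact Set.mem_iUnion.2 ⟨j, z, rfl⟩

end Pool.Agent.N111.GG
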