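import Pool.Agent.N111.GG.Brody

/-!
Closed subvarieties of varieties on which the multi-valued maps are jointly generically finite are
of general type, off a proper closed subset.
-/

set_option autoImplicit false
set_option maxHeartbeats 400000
set_option linter.overlappingInstances false
set_option linter.unusedSectionVars false

open FF IntermediateField Filter

namespace Pool.Agent.N111.GG

open Pool.Agent.W602.GT Pool.Agent.TH466.QG Pool.Agent.Y221.AB
open Pool.Agent.N111.FT Pool.Agent.Y221.BD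

theorem poly_mem {k E : Type} [Field k] [Field E] [Algebra k E] {τ : Type} (u : τ → E)
    (G : MvPolynomial τ k) : MvPolynomial.aeval u G ∈ adjoin k (Set.range u) := by
  have h3 : MvPolynomial.aeval u G ∈ Algebra.adjoin k (Set.range u) := by
    rw [Algebra.adjoin_range_eq_range_aeval]
    exact ⟨G, rfl⟩
  exact algebra_adjoin_le_adjoin k _ h3

/-- systems of circuits over the function fields of the specialized values -/
theorem MultiMap.open_circ {k L : Type} [Field k] [CharZero k] [IsAlgClosed k] [Field L]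
    [Algebra k L] {s N r : ℕ} (C : MultiMap k L s N r) (hN1 : 1 ≤ N) :
    ∃ Θ : Set C.K, Θ.Finite ∧ ∀ (K'' : Type) [Field K''] [Algebra k K''] (S : Sp k C.K K''),
      (∀ ϑ ∈ Θ, ∃ z, S.T ϑ z) → ∀ y' : Fin (C.n + 1) → K'', (∀ i, S.T (C.u i) (y' i)) →
      ∀ w' : ℕ, Algebra.trdeg k (adjoin k (Set.range y')) = w' →
      HasCirc k s N w' (adjoin k (Set.range y')) := by
  classical
  obtain ⟨Θ, hΘ, hopen⟩ := open_alg C.high hN1 C.u_mem (i0 := C.i0)
    (by rw [C.u_i0]; exact one_ne_zero) C.not_lin C.not_wt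
  obtain ⟨H, hH, hG⟩ := exists_den C.adjoin_u hΘ
  refine ⟨{(MvPolynomial.aeval C.u H)⁻¹}, Set.finite_singleton _, ?_⟩
  intro K'' _ _ S hS y' hy' w' hw'
  have hHS : ∃ t, S.T (algebraMap C.K C.K (MvPolynomial.aeval C.u H))⁻¹ t := hS _ rfl
  have hone : y' C.i0 = 1 := by
    have h1 := hy' C.i0
    rw [C.u_i0] at h1
    exact S.ext h1 S.one
  let v₀ : Fin (C.n + 1) → adjoin k (Set.range y') := fun i =>
    ⟨y' i, subset_adjoin k _ ⟨i, rfl⟩⟩
  refine hopen _ (cod S (adjoin k (Set.range y'))) (fun ϑ hϑ => ?_)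
    v₀ (fun i => hy' i) w' hw' ?_
  · obtain ⟨G, hG'⟩ := hG ϑ hϑ
    have h1 := rat_spec (L := C.K) (M := C.K) (E := K'') (K'' := K'') S
      (x := C.u) (z := y') hy' hH hHS hG'
    exact ⟨⟨_, div_mem (poly_mem y' G) (poly_mem y' H)⟩, h1⟩
  · have h1 : coords k v₀ = ⊤ := by
      have h2 : v₀ C.i0 = 1 := Subtype.ext hone
      rw [eq_top_iff]
      intro v _
      have h3 : (v : K'') ∈ (coords k v₀).map (adjoin k (Set.range y')).val := by
        refine (adjoin_le_iff.2 ?_) v.2
        rintro _ ⟨i, rfl⟩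
        refine ⟨v₀ i, ?_, rfl⟩
        refine subset_adjoin k _ ⟨i, C.i0, ?_, ?_⟩
        · rw [h2]
          exact one_ne_zero
        · rw [h2, div_one]
      obtain ⟨v', hv', hvv⟩ := h3
      have h4 : v' = v := Subtype.ext hvv
      rw [← h4]
      exact hv'
    rw [h1]
    infer_instance

/-- **Subvarieties.** -/
theorem Fam.strong {k L : Type} [Field k] [CharZero k] [IsAlgClosed k] [Field L] [Algebra k L]
    {s N r : ℕ} (A : Fam k L s N r) (hN1 : 1 ≤ N) {m : ℕ} (hm : Algebra.trdeg k L = m)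
    (hN : r * (m * ((s + 4) * ((s - 1) * (s - 2) / 2))) ≤ N)
    (hjoint : ∀ z : L, algebraMap L A.M z ∈ aclo k A.vals) {M : ℕ} {x : Fin (M + 1) → L}
    (hx : x ≠ 0) (hgen : coords k x = ⊤) : StronglyGeneral k x := by
  classical
  obtain ⟨i1, hi1'⟩ := Function.ne_iff.1 hx
  have hi1 : x i1 ≠ 0 := hi1'
  choose Θ hΘ hopen using fun j => (A.C j).open_circ hN1
  obtain ⟨H, hH, hE⟩ := A.engine (adjoin_norm hgen hi1) (h := fun m => x m / x i1)
    (fun m => hjoint _) (D := 1) (by rw [map_one]; exact one_ne_zero)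
    (P := fun m => MvPolynomial.X m) (fun m => by
      rw [map_one, mul_one, MvPolynomial.aeval_X]) hΘ
  refine ⟨MvPolynomial.X i1 * hz i1 H, ?_, ?_, ?_⟩
  · obtain ⟨d, hd⟩ := hz_form i1 H
    exact ⟨1 + d, (MvPolynomial.isHomogeneous_X k i1).mul hd⟩
  · change MvPolynomial.aeval x _ ≠ 0
    rw [map_mul, MvPolynomial.aeval_X]
    refine mul_ne_zero hi1 ?_
    change val x _ ≠ 0
    rw [val_hz H hi1]
    exact mul_ne_zero (pow_ne_zero _ hi1) hH
  intro E _ _ w' z hz hzR hw1 htr
  change MvPolynomial.aeval z _ ≠ 0 at hzR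
  rw [map_mul, MvPolynomial.aeval_X] at hzR
  have hz1 : z i1 ≠ 0 := left_ne_zero_of_mul hzR
  have hzH : MvPolynomial.aeval (fun i => z i / z i1) H ≠ 0 := by
    have h1 : val z (Pool.Agent.TH466.QG.hz i1 H) ≠ 0 := right_ne_zero_of_mul hzR
    rw [val_hz H hz1] at h1
    exact right_ne_zero_of_mul h1
  have hsp : ∀ G : MvPolynomial (Fin (M + 1)) k,
      MvPolynomial.aeval (fun i => x i / x i1) G = 0 →
      MvPolynomial.aeval (fun i => z i / z i1) G = 0 := by
    intro G hG
    have h1 : val x (Pool.Agent.TH466.QG.hz i1 G) = 0 := by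
      rw [val_hz G hi1, hG, mul_zero]
    have h2 := hz.spec _ (hz_form i1 G) h1
    rw [val_hz G hz1] at h2
    exact (mul_eq_zero.1 h2).resolve_left (pow_ne_zero _ hz1)
  obtain ⟨K'', i1', i2', i3', i4', i5', Ej, Sj, y', hrk, hSΘ, hSu, hDz, halg⟩ := hE E
    (fun i => z i / z i1) hsp hzH
  have htr' : ∀ j, ∃ w₀ : ℕ, Algebra.trdeg k (adjoin k (Set.range (y' j))) = w₀ := by
    intro j
    have h1 : Algebra.trdeg k (adjoin k (Set.range (y' j))) ≤ Algebra.trdeg k (Ej j) :=
      trdeg_le_of_injective (adjoin k (Set.range (y' j))).val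
        (adjoin k (Set.range (y' j))).val.injective
    have h2 : Algebra.trdeg k (Ej j) = w' := by
      rw [Pool.Agent.N111.FT.trdeg_alg (E := E), htr]
    rw [h2] at h1
    obtain ⟨n, -, hn⟩ := Cardinal.exists_nat_eq_of_le_nat h1
    exact ⟨n, hn⟩
  choose w₀ hw₀ using htr'
  have hC : ∀ j, HasCirc k s N (w₀ j) (adjoin k (Set.range (y' j))) := fun j =>
    hopen j (Ej j) (Sj j) (hSΘ j) (y' j) (hSu j) (w₀ j) (hw₀ j)
  have hle : w' ≤ m := dim_le (adjoin_norm hz.gen hz1) hsp hm htr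
  refine general_family (Ω := K'') (K := fun j => Ej j)
    (K₀ := fun j => adjoin k (Set.range (y' j))) (fun j => (Ej j).val)
    (fun j => (adjoin k (Set.range (y' j))).val) hrk ?_ hC htr hw1 ?_
  · have hE₁ : (adjoin k (Set.range fun i => z i / z i1)).map (IsScalarTower.toAlgHom k E K'') ≤
        aclo k (⋃ j, Set.range fun v : adjoin k (Set.range (y' j)) => ((v : Ej j) : K'')) := by
      rw [IntermediateField.adjoin_map, IntermediateField.adjoin_le_iff]
      rintro _ ⟨_, ⟨i, rfl⟩, rfl⟩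
      have h1 := halg i
      rw [map_one, div_one, MvPolynomial.aeval_X] at h1
      refine aclo_mono ?_ h1
      rintro _ ⟨⟨j, i'⟩, rfl⟩
      exact Set.mem_iUnion.2 ⟨j, ⟨y' j i', subset_adjoin k _ ⟨i', rfl⟩⟩, rfl⟩
    intro e
    refine hE₁ ⟨e, ?_, rfl⟩
    rw [adjoin_norm hz.gen hz1]
    exact IntermediateField.mem_top
  · rw [tn_eq]
    refine le_trans ?_ hN
    exact Nat.mul_le_mul_left _ (Nat.mul_le_mul_right _ hle)

end Pool.Agent.N111.GG
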