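import Pool.Agent.N111.GG.HomsF
import Pool.Agent.TH466.QG.Strong

/-!
Specializations of a finite extension which is generated by subextensions of small degree.
-/

set_option autoImplicit false
set_option linter.overlappingInstances false
set_option linter.unusedSectionVars false

open FF IntermediateField Polynomial

namespace Pool.Agent.N111.GG

open Pool.Agent.TH466.QG Pool.Agent.N111.FT
open Pool.Agent.W602.GT (val coords)

/-- algebraic elements are algebraic over the field generated by finitely many elements -/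
theorem aclo_finite {k A : Type} [Field k] [Field A] [Algebra k A] {V : Set A} {x : A}
    (hx : x ∈ aclo k V) : ∃ T : Finset A, (T : Set A) ⊆ V ∧ x ∈ aclo k (T : Set A) := by
  classical
  obtain ⟨p, hp0, hp⟩ := mem_aclo.1 hx
  choose T hTV hT using fun i : ℕ =>
    IntermediateField.exists_finset_of_mem_adjoin (F := k) (S := V) (p.coeff i).2
  refine ⟨(Finset.range (p.natDegree + 1)).biUnion T, ?_, ?_⟩
  · intro y hy
    obtain ⟨i, -, hi⟩ := Finset.mem_biUnion.1 (Finset.mem_coe.1 hy)
    exact hTV i hi
  · rw [mem_aclo]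
    set W : Set A := (((Finset.range (p.natDegree + 1)).biUnion T : Finset A) : Set A) with hW
    have hc : ∀ i, (p.coeff i : A) ∈ adjoin k W := by
      intro i
      by_cases hi : i ≤ p.natDegree
      · refine IntermediateField.adjoin.mono k _ _ ?_ (hT i)
        intro y hy
        exact Finset.mem_coe.2 (Finset.mem_biUnion.2
          ⟨i, Finset.mem_range.2 (Nat.lt_succ_of_le hi), hy⟩)
      · rw [Polynomial.coeff_eq_zero_of_natDegree_lt (by omega)]
        exact zero_mem _
    obtain ⟨q, hq⟩ := (Polynomial.mem_lifts (p.map (algebraMap (adjoin k V) A))).1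
      ((Polynomial.lifts_iff_coeff_lifts (f := algebraMap (adjoin k W) A) _).2 fun i => by
        rw [Polynomial.coeff_map]
        exact ⟨⟨_, hc i⟩, rfl⟩)
    refine ⟨q, ?_, ?_⟩
    · rintro rfl
      rw [Polynomial.map_zero] at hq
      exact hp0 ((Polynomial.map_eq_zero _).1 hq.symm)
    · rw [Polynomial.aeval_def, ← Polynomial.eval_map, hq, Polynomial.eval_map,
        ← Polynomial.aeval_def]
      exact hp

/-- elements which are algebraic over the field generated by `u` remain algebraic under
specialization -/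
theorem alg_spec_aff {k K' : Type} [Field k] [Field K'] [Algebra k K'] {τ σ : Type} [Finite σ]
    (u : τ → K') (x : σ → K') (hx : ∀ m, x m ∈ aclo k (Set.range u)) :
    ∃ H : MvPolynomial τ k, MvPolynomial.aeval u H ≠ 0 ∧
      ∀ (K'' : Type) [Field K''] [Algebra k K''] (S : Sp k K' K''),
        (∃ t, S.T (MvPolynomial.aeval u H)⁻¹ t) → ∀ u' : τ → K'',
        (∀ i, S.T (u i) (u' i)) → ∀ z : σ → K'', (∀ m, S.T (x m) (z m)) →
        ∀ m, z m ∈ aclo k (Set.range u') := by
  classical
  let K : IntermediateField k K' := adjoin k (Set.range u)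
  let v : τ → K := fun i => ⟨u i, subset_adjoin k _ ⟨i, rfl⟩⟩
  have hv : ∀ i, algebraMap K K' (v i) = u i := fun i => rfl
  have hvtop : adjoin k (Set.range v) = ⊤ := by
    have h1 : (adjoin k (Set.range v)).map K.val = K := by
      rw [IntermediateField.adjoin_map]
      have : K.val '' Set.range v = Set.range u := by
        rw [← Set.range_comp]
        rfl
      rw [this]
    rw [eq_top_iff]
    intro y _
    have h2 : (y : K') ∈ (adjoin k (Set.range v)).map K.val := by
      rw [h1]
      exact y.2
    obtain ⟨y', hy', hyy⟩ := h2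
    have h3 : y' = y := Subtype.ext hyy
    rw [← h3]
    exact hy'
  have hvalv : ∀ G : MvPolynomial τ k, algebraMap K K' (MvPolynomial.aeval v G) =
      MvPolynomial.aeval u G := by
    intro G
    have h1 : (IsScalarTower.toAlgHom k K K').comp (MvPolynomial.aeval v) =
        MvPolynomial.aeval u := by
      apply MvPolynomial.algHom_ext
      intro i
      simp [hv]
    rw [← h1]
    rfl
  have hxint : ∀ m, IsIntegral K (x m) := fun m => (mem_aclo.1 (hx m)).isIntegral
  have hfin : (⋃ m, (↑(minpoly K (x m)).coeffs : Set K)).Finite :=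
    Set.finite_iUnion fun m => Finset.finite_toSet _
  obtain ⟨H, hH, hG⟩ := exists_den hvtop hfin
  have hH' : MvPolynomial.aeval u H ≠ 0 := by
    rw [← hvalv]
    intro h0
    exact hH ((map_eq_zero _).1 h0)
  refine ⟨H, hH', ?_⟩
  intro K'' _ _ S hS u' hu' z hxz m
  have hval : ∀ G : MvPolynomial τ k, S.T (MvPolynomial.aeval u G)
      (MvPolynomial.aeval u' G) := by
    intro G
    induction G using MvPolynomial.induction_on with
    | C c =>
      rw [MvPolynomial.aeval_C, MvPolynomial.aeval_C]
      exact S.const c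
    | add p q hp hq =>
      rw [map_add, map_add]
      exact S.add hp hq
    | mul_X p i hp =>
      rw [map_mul, map_mul, MvPolynomial.aeval_X, MvPolynomial.aeval_X]
      exact S.mul hp (hu' i)
  have hHu' : MvPolynomial.aeval u' H ≠ 0 := S.ne_zero (hval H) hS hH'
  have hmem : ∀ G : MvPolynomial τ k,
      MvPolynomial.aeval u' G ∈ adjoin k (Set.range u') := by
    intro G
    have h3 : MvPolynomial.aeval u' G ∈ Algebra.adjoin k (Set.range u') := by
      rw [Algebra.adjoin_range_eq_range_aeval]
      exact ⟨G, rfl⟩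
    exact algebra_adjoin_le_adjoin k _ h3
  have hco : ∀ i, ∃ c' : adjoin k (Set.range u'),
      S.T (algebraMap K K' ((minpoly K (x m)).coeff i)) c' := by
    intro i
    by_cases h0 : (minpoly K (x m)).coeff i = 0
    · exact ⟨0, by rw [h0, map_zero]; exact S.zero⟩
    · obtain ⟨G, hG'⟩ := hG _ (Set.mem_iUnion.2 ⟨m, Polynomial.coeff_mem_coeffs h0⟩)
      refine ⟨⟨MvPolynomial.aeval u' G * (MvPolynomial.aeval u' H)⁻¹,
        mul_mem (hmem G) (inv_mem (hmem H))⟩, ?_⟩
      have h1 : algebraMap K K' ((minpoly K (x m)).coeff i) = MvPolynomial.aeval u G *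
          (MvPolynomial.aeval u H)⁻¹ := by
        rw [← hvalv, ← hvalv, ← hG', map_mul]
        have h2 : algebraMap K K' (MvPolynomial.aeval v H) ≠ 0 := by
          rw [hvalv]
          exact hH'
        field_simp
      rw [h1]
      exact S.mul (hval G) (S.inv (hval H) hS hH')
  choose c' hc' using hco
  set d := (minpoly K (x m)).natDegree with hd
  have hlead : (c' d : K'') = 1 := by
    have h1 := hc' d
    have h2 : (minpoly K (x m)).coeff d = 1 := (minpoly.monic (hxint m)).coeff_natDegree
    rw [h2, map_one] at h1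
    exact S.ext h1 S.one
  rw [mem_aclo]
  refine ⟨∑ i ∈ Finset.range (d + 1), Polynomial.C (c' i) * Polynomial.X ^ i, ?_, ?_⟩
  · intro h0
    have h1 := congrArg (fun p => Polynomial.coeff p d) h0
    simp only [Polynomial.finsetSum_coeff, Polynomial.coeff_C_mul, Polynomial.coeff_X_pow,
      Polynomial.coeff_zero, mul_ite, mul_one, mul_zero, Finset.sum_ite_eq,
      Finset.mem_range, Nat.lt_succ_self, if_true] at h1
    rw [h1] at hlead
    exact zero_ne_one hlead
  · have h1 : Polynomial.aeval (z m) (∑ i ∈ Finset.range (d + 1),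
        Polynomial.C (c' i) * Polynomial.X ^ i) =
        ∑ i ∈ Finset.range (d + 1), (c' i : K'') * z m ^ i := by
      rw [map_sum]
      refine Finset.sum_congr rfl fun i _ => ?_
      rw [map_mul, Polynomial.aeval_C, map_pow, Polynomial.aeval_X]
      rfl
    rw [h1]
    have h2 := S.sum (Finset.range (d + 1)) (fun i _ => S.mul (hc' i) (S.pow (hxz m) i))
    refine S.eq_zero h2 ?_
    have h3 := minpoly.aeval K (x m)
    rw [Polynomial.aeval_eq_sum_range] at h3
    simp only [Algebra.smul_def] at h3
    exact h3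

section rat

variable {k L M E K'' : Type} [Field k] [Field L] [Field M] [Field E] [Field K'']
  [Algebra k L] [Algebra k M] [Algebra L M] [IsScalarTower k L M] [Algebra k E] [Algebra k K'']
  [Algebra E K''] [IsScalarTower k E K''] {σ : Type} {x : σ → L} {z : σ → E}

/-- values of polynomials -/
theorem poly_spec (S : Sp k M K'')
    (hS : ∀ i, S.T (algebraMap L M (x i)) (algebraMap E K'' (z i))) (G : MvPolynomial σ k) :
    S.T (algebraMap L M (MvPolynomial.aeval x G)) (algebraMap E K'' (MvPolynomial.aeval z G)) := by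
  induction G using MvPolynomial.induction_on with
  | C c =>
    rw [MvPolynomial.aeval_C, MvPolynomial.aeval_C, ← IsScalarTower.algebraMap_apply,
      ← IsScalarTower.algebraMap_apply]
    exact S.const c
  | add p q hp hq =>
    rw [map_add, map_add, map_add, map_add]
    exact S.add hp hq
  | mul_X p i hp =>
    rw [map_mul, map_mul, map_mul, map_mul, MvPolynomial.aeval_X, MvPolynomial.aeval_X]
    exact S.mul hp (hS i)

/-- values of rational functions -/
theorem rat_spec (S : Sp k M K'')
    (hS : ∀ i, S.T (algebraMap L M (x i)) (algebraMap E K'' (z i))) {H : MvPolynomial σ k}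
    (hH : MvPolynomial.aeval x H ≠ 0)
    (hHS : ∃ t, S.T (algebraMap L M (MvPolynomial.aeval x H))⁻¹ t) {c : L}
    {G : MvPolynomial σ k} (hc : c * MvPolynomial.aeval x H = MvPolynomial.aeval x G) :
    S.T (algebraMap L M c)
      (algebraMap E K'' (MvPolynomial.aeval z G / MvPolynomial.aeval z H)) := by
  have h1 : algebraMap L M (MvPolynomial.aeval x H) ≠ 0 := by
    rw [Ne, map_eq_zero]
    exact hH
  have h2 := S.inv (poly_spec S hS H) hHS h1
  have h3 := S.mul (poly_spec S hS G) h2
  rw [map_div₀, div_eq_mul_inv]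
  have h4 : algebraMap L M c = algebraMap L M (MvPolynomial.aeval x G) *
      (algebraMap L M (MvPolynomial.aeval x H))⁻¹ := by
    rw [← hc, map_mul]
    field_simp
  rw [h4]
  exact h3

/-- the denominator does not vanish -/
theorem den_spec (S : Sp k M K'')
    (hS : ∀ i, S.T (algebraMap L M (x i)) (algebraMap E K'' (z i))) {H : MvPolynomial σ k}
    (hH : MvPolynomial.aeval x H ≠ 0)
    (hHS : ∃ t, S.T (algebraMap L M (MvPolynomial.aeval x H))⁻¹ t) :
    MvPolynomial.aeval z H ≠ 0 := by
  have h1 : algebraMap L M (MvPolynomial.aeval x H) ≠ 0 := by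
    rw [Ne, map_eq_zero]
    exact hH
  have h2 := S.ne_zero (poly_spec S hS H) hHS h1
  intro h0
  rw [h0, map_zero] at h2
  exact h2 rfl

end rat

/-- **Spreading out**, with subextensions. -/
theorem spread_sub {k L M : Type} [Field k] [CharZero k] [Field L] [Field M] [Algebra k L]
    [Algebra k M] [Algebra L M] [IsScalarTower k L M] [FiniteDimensional L M] {σ : Type}
    {x : σ → L} (hx : adjoin k (Set.range x) = ⊤) {Θ : Set M} (hΘ : Θ.Finite)
    {J : Type} [Finite J] {K : J → Type} [∀ j, Field (K j)] [∀ j, Algebra L (K j)]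
    [∀ j, FiniteDimensional L (K j)] (ψ : ∀ j, K j →ₐ[L] M) {Θ' : ∀ j, Set (K j)}
    (hΘ' : ∀ j, (Θ' j).Finite) : ∃ H : MvPolynomial σ k, MvPolynomial.aeval x H ≠ 0 ∧
      ∀ (E : Type) [Field E] [Algebra k E] (z : σ → E),
        (∀ G : MvPolynomial σ k, MvPolynomial.aeval x G = 0 → MvPolynomial.aeval z G = 0) →
        MvPolynomial.aeval z H ≠ 0 →
        ∃ (K'' : Type) (_ : Field K'') (_ : Algebra k K'') (_ : Algebra E K'')
          (_ : IsScalarTower k E K'') (_ : FiniteDimensional E K'') (S : Sp k M K'')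
          (Ej : J → IntermediateField E K''),
            (∀ i, S.T (algebraMap L M (x i)) (algebraMap E K'' (z i))) ∧
            (∀ ϑ ∈ Θ, ∃ t, S.T ϑ t) ∧
            ∀ j, Module.finrank E (Ej j) ≤ Module.finrank L (K j) ∧
              ∀ ϑ ∈ Θ' j, ∃ t ∈ Ej j, S.T (ψ j ϑ) t := by
  classical
  have hcL : CharZero L := charZero_of_injective_algebraMap (algebraMap k L).injective
  choose θ hθ using fun j => Field.exists_primitive_element L (K j)
  have hθi : ∀ j, IsIntegral L (θ j) := fun j => Algebra.IsIntegral.isIntegral (θ j)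
  have hrep : ∀ j (ϑ : K j), ∃ p : L[X], Polynomial.aeval (θ j) p = ϑ := by
    intro j ϑ
    have h1 : ϑ ∈ (L⟮θ j⟯).toSubalgebra := by
      rw [hθ j]
      exact IntermediateField.mem_top
    rw [IntermediateField.adjoin_simple_toSubalgebra_of_isAlgebraic (hθi j).isAlgebraic] at h1
    rw [Algebra.adjoin_singleton_eq_range_aeval] at h1
    exact h1
  choose p hp using hrep
  have hfinS : (⋃ j, ((↑(minpoly L (θ j)).coeffs : Set L) ∪
      ⋃ ϑ ∈ Θ' j, (↑(p j ϑ).coeffs : Set L))).Finite :=
    Set.finite_iUnion fun j => (Finset.finite_toSet _).union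
      ((hΘ' j).biUnion fun ϑ _ => Finset.finite_toSet _)
  obtain ⟨H₁, hH₁, hG₁⟩ := exists_den hx hfinS
  obtain ⟨H, hH, hspread⟩ := spread (K' := M) hx
    (Θ := Θ ∪ (Set.range (fun j => ψ j (θ j)) ∪ {(algebraMap L M (MvPolynomial.aeval x H₁))⁻¹}))
    (hΘ.union ((Set.finite_range _).union (Set.finite_singleton _)))
  refine ⟨H, hH, fun E _ _ z hz hzH => ?_⟩
  obtain ⟨K'', i1, i2, i3, i4, i5, -, S, hSx, hSΘ⟩ := hspread E z hz hzH
  have hden : ∃ t, S.T (algebraMap L M (MvPolynomial.aeval x H₁))⁻¹ t :=
    hSΘ _ (Or.inr (Or.inr rfl))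
  have hrat : ∀ j (q : L[X]), (↑q.coeffs : Set L) ⊆ (↑(minpoly L (θ j)).coeffs : Set L) ∪
      ⋃ ϑ ∈ Θ' j, (↑(p j ϑ).coeffs : Set L) → ∀ i, ∃ e : E,
      S.T (algebraMap L M (q.coeff i)) (algebraMap E K'' e) := by
    intro j q hq i
    by_cases h0 : q.coeff i = 0
    · exact ⟨0, by rw [h0, map_zero, map_zero]; exact S.zero⟩
    · obtain ⟨G, hG'⟩ := hG₁ (q.coeff i)
        (Set.mem_iUnion.2 ⟨j, hq (Polynomial.coeff_mem_coeffs h0)⟩)
      exact ⟨_, rat_spec S hSx hH₁ hden hG'⟩
  choose t ht using fun j => hSΘ (ψ j (θ j)) (Or.inr (Or.inl ⟨j, rfl⟩))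
  have hsum : ∀ j (q : L[X]) (e : ℕ → E),
      (∀ i, S.T (algebraMap L M (q.coeff i)) (algebraMap E K'' (e i))) →
      S.T (ψ j (Polynomial.aeval (θ j) q))
        (∑ i ∈ Finset.range (q.natDegree + 1), algebraMap E K'' (e i) * t j ^ i) := by
    intro j q e he
    have h2 : ψ j (Polynomial.aeval (θ j) q) = ∑ i ∈ Finset.range (q.natDegree + 1),
        algebraMap L M (q.coeff i) * (ψ j (θ j)) ^ i := by
      rw [Polynomial.aeval_eq_sum_range, map_sum]
      refine Finset.sum_congr rfl fun i _ => ?_
      rw [Algebra.smul_def, map_mul, map_pow, AlgHom.commutes]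
    rw [h2]
    exact S.sum _ fun i _ => S.mul (he i) (S.pow (ht j) i)
  refine ⟨K'', i1, i2, i3, i4, i5, S, fun j => E⟮t j⟯, hSx,
    fun ϑ hϑ => hSΘ _ (Or.inl hϑ), fun j => ⟨?_, ?_⟩⟩
  · -- the degree
    choose e he using hrat j (minpoly L (θ j)) Set.subset_union_left
    set d := (minpoly L (θ j)).natDegree with hd
    have hlead : e d = 1 := by
      have h1 := he d
      have h2 : (minpoly L (θ j)).coeff d = 1 := (minpoly.monic (hθi j)).coeff_natDegree
      rw [h2, map_one] at h1
      have h3 := S.ext h1 S.one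
      exact (algebraMap E K'').injective (by rw [h3, map_one])
    have hzero : ∑ i ∈ Finset.range (d + 1), algebraMap E K'' (e i) * t j ^ i = 0 := by
      refine S.eq_zero (hsum j (minpoly L (θ j)) e he) ?_
      rw [minpoly.aeval, map_zero]
    let q : E[X] := ∑ i ∈ Finset.range (d + 1), Polynomial.C (e i) * Polynomial.X ^ i
    have hqc : ∀ i, i ∈ Finset.range (d + 1) → q.coeff i = e i := by
      intro i hi
      simp only [q, Polynomial.finsetSum_coeff, Polynomial.coeff_C_mul, Polynomial.coeff_X_pow,
        mul_ite, mul_one, mul_zero, Finset.sum_ite_eq, hi, if_true]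
    have hqd : q.natDegree ≤ d := by
      refine Polynomial.natDegree_sum_le_of_forall_le _ _ fun i hi => ?_
      refine (Polynomial.natDegree_C_mul_X_pow_le _ _).trans ?_
      have := Finset.mem_range.1 hi
      omega
    have hq0 : q ≠ 0 := by
      intro h0
      have h1 := hqc d (Finset.mem_range.2 (Nat.lt_succ_self d))
      rw [h0, Polynomial.coeff_zero, hlead] at h1
      exact zero_ne_one h1
    have hqt : Polynomial.aeval (t j) q = 0 := by
      rw [← hzero]
      simp only [q, map_sum, map_mul, Polynomial.aeval_C, map_pow, Polynomial.aeval_X]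
    have hti : IsIntegral E (t j) := Algebra.IsIntegral.isIntegral _
    rw [IntermediateField.adjoin.finrank hti]
    refine (Polynomial.natDegree_le_natDegree
      (minpoly.degree_le_of_ne_zero E (t j) hq0 hqt)).trans ?_
    refine hqd.trans (le_of_eq ?_)
    rw [hd, ← IntermediateField.adjoin.finrank (hθi j), hθ j, IntermediateField.finrank_top']
  · intro ϑ hϑ
    choose e he using hrat j (p j ϑ) (fun c hc => Or.inr (Set.mem_biUnion hϑ hc))
    refine ⟨∑ i ∈ Finset.range ((p j ϑ).natDegree + 1), algebraMap E K'' (e i) * t j ^ i, ?_, ?_⟩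
    · refine sum_mem fun i _ => mul_mem ?_ (pow_mem (mem_adjoin_simple_self E (t j)) i)
      exact IntermediateField.algebraMap_mem _ _
    · have h1 := hsum j (p j ϑ) e he
      rw [hp] at h1
      exact h1

end Pool.Agent.N111.GG
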